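import Pool.Agent.Lib.ETR.Defs

namespace Pool.Agent.P.MP_70cdcc_lc

/-- The orientation determinant of three points of the plane: positive when `r` lies to the left
of the directed line from `p` to `q`, negative when it lies to the right. -/
def orient (p q r : ℝ × ℝ) : ℝ := (q.1 - p.1) * (r.2 - p.2) - (q.2 - p.2) * (r.1 - p.1)

/-- The placement `φ` obeys the labels `σ` (`true` is left, `false` is right) along the walk `W`:
the `j`-th label prescribes the orientation of the entries `j, j+1, j+2`. -/
def Obeys {V : Type} (φ : V → ℝ × ℝ) (W : List V) (σ : List Bool) : Prop :=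
  ∀ (j : ℕ) (h : j + 2 < W.length) (h' : j < σ.length),
    (σ[j] = true → 0 < orient (φ W[j]) (φ W[j + 1]) (φ W[j + 2])) ∧
    (σ[j] = false → orient (φ W[j]) (φ W[j + 1]) (φ W[j + 2]) < 0)

open Classical in
/-- The `k`-visit directional walk problem: codes of pairs (walk, labels), the vertices being
named by binary strings, with one label for each triple of consecutive entries and no vertex
occurring more than `k` times, that have a placement which is injective on the vertices and
obeys the labels. -/
noncomputable def DW (k : ℕ) : N68a2faeb.DecisionProblem := fun x =>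
  decide (∃ (W : List (List Bool)) (σ : List Bool), x = N487b59b3.bitEncode (W, σ) ∧
    σ.length = W.length - 2 ∧ (∀ v, W.count v ≤ k) ∧
    ∃ φ : List Bool → ℝ × ℝ, Set.InjOn φ {v | v ∈ W} ∧ Obeys φ W σ)

end Pool.Agent.P.MP_70cdcc_lc
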