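import Pool.Agent.P.MP_70cdcc_lc.Pieces

/-! The pieces can be placed exactly when the demands can be met. -/

namespace Pool.Agent.P.MP_70cdcc_lc

open Pool.Agent.Lib.ETR Filter Topology

variable {κ : Type}

theorem orient_rot (a b c : Pt) : orient a b c = orient b c a := by simp only [orient]; ring

theorem orient_swap (a b c : Pt) : orient a b c = -orient a c b := by simp only [orient]; ring

theorem wire_pack {φ : Vx κ → Pt} {w : κ × ℕ} {N : ℕ}
    (hW : ∀ t < N, Ok φ (inst w t tA) ∧ Ok φ (inst w t tB) ∧ Ok φ (inst w t tC))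
    (hE : Ok φ (inst w N tE)) {g : V3} {i : ℕ} (hi : 6 ≤ i)
    (g0 : 0 < aff g (φ ([w.1], w.2, i))) (g1 : 0 < aff g (φ ([w.1], w.2, i + 1)))
    (g2 : 0 < aff g (φ ([w.1], w.2, i + 2))) :
    (∀ j, i ≤ j → j ≤ 12 * N + 3 → 0 < aff g (φ ([w.1], w.2, j))) ∧
      ∀ t < N, i ≤ 12 * t + 12 → 0 < aff g (φ ([w.1], w.2 + 3, 12 * t + 12)) := by
  let q : ℕ → Pt := fun j => φ ([w.1], w.2, j)
  have B : ∀ t < N, (∀ o ∈ [3, 5, 6, 7, 8, 9, 10, 11, 12, 13, 14, 16],
      0 < orient (q (12 * t + o)) (q (12 * t + o + 1)) (q (12 * t + o + 3))) ∧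
      (∀ o ∈ [1, 4, 6, 7, 8, 9, 10, 11, 12, 14, 15, 17],
        orient (q (12 * t + o)) (q (12 * t + o + 2)) (q (12 * t + o + 3)) < 0) ∧
      0 < orient (q (12 * t + 12)) (q (12 * t + 13)) (φ ([w.1], w.2 + 3, 12 * t + 12)) ∧
      0 < orient (q (12 * t + 13)) (q (12 * t + 15)) (φ ([w.1], w.2 + 3, 12 * t + 12)) ∧
      0 < orient (q (12 * t + 15)) (q (12 * t + 12)) (φ ([w.1], w.2 + 3, 12 * t + 12)) := by
    intro t ht
    obtain ⟨hA, hB, hC⟩ := hW t ht
    simp only [inst, tA, tB, tC, List.map_cons, List.map_nil, ok_three, ok_two, sg_true, sg_false,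
      one_mul, neg_mul, neg_pos, add_zero, and_true] at hA hB hC
    obtain ⟨a1, a2, a3, a4, a5, a6, a7, a8, a9, a10⟩ := hA
    obtain ⟨b1, b2, b3, b4, b5, b6, b7, b8⟩ := hB
    obtain ⟨c1, c2, c3, c4, c5, c6, c7, c8⟩ := hC
    have s2 := a9
    rw [orient_swap, neg_lt_zero] at s2
    have s3 := a10
    rw [orient_rot] at s3
    have a12 : 0 < orient (q (12 * t + 12)) (q (12 * t + 13)) (q (12 * t + 15)) := by
      refine (add_pos (add_pos a8 s2) s3).trans_eq ?_
      simp only [orient, q]; ring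
    simp only [List.forall_mem_cons, List.not_mem_nil, false_imp_iff, implies_true, and_true]
    exact ⟨⟨a2, b1, a4, c1, b3, a6, c3, b5, a12, c5, b7, c7⟩,
      ⟨a1, a3, b2, a5, c2, b4, a7, c4, b6, c6, b8, c8⟩, a8, s2, s3⟩
  have main : ∀ j, i ≤ j → j ≤ 12 * N + 3 → 0 < aff g (q j) := by
    refine wire_sound (lo := 6) (fun i h1 h2 => ?_) (fun i h1 h2 => ?_) ?_ hi g0 g1 g2
    · obtain ⟨t, o, ht, ho, rfl⟩ : ∃ t o, t < N ∧
          o ∈ [3, 5, 6, 7, 8, 9, 10, 11, 12, 13, 14, 16] ∧ i = 12 * t + o := by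
        by_cases h : i % 12 = 0 ∨ i % 12 = 1 ∨ i % 12 = 2 ∨ i % 12 = 4
        · exact ⟨i / 12 - 1, i % 12 + 12, by omega, by simp; omega, by omega⟩
        · exact ⟨i / 12, i % 12, by omega, by simp; omega, by omega⟩
      exact (B t ht).1 o ho
    · obtain ⟨t, o, ht, ho, rfl⟩ : ∃ t o, t < N ∧
          o ∈ [1, 4, 6, 7, 8, 9, 10, 11, 12, 14, 15, 17] ∧ i = 12 * t + o := by
        by_cases h : i % 12 = 0 ∨ i % 12 = 2 ∨ i % 12 = 3 ∨ i % 12 = 5
        · exact ⟨i / 12 - 1, i % 12 + 12, by omega, by simp; omega, by omega⟩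
        · exact ⟨i / 12, i % 12, by omega, by simp; omega, by omega⟩
      exact (B t ht).2.1 o ho
    · simpa [inst, tE, ok_three] using hE
  refine ⟨main, fun t ht h => ?_⟩
  obtain ⟨-, -, s1, s2, s3⟩ := B t ht
  exact tri_pos s1 s2 s3 (main _ h (by omega)) (main _ (by omega) (by omega))
    (main _ (by omega) (by omega))

def lineOf (s : Bool) (u v : Pt) : V3 :=
  (sg s * -(v.2 - u.2), sg s * (v.1 - u.1), sg s * ((v.2 - u.2) * u.1 - (v.1 - u.1) * u.2))

theorem aff_lineOf (s : Bool) (u v x : Pt) : aff (lineOf s u v) x = sg s * orient u v x := by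
  simp only [aff, lineOf, orient]; ring

variable [DecidableEq κ] [Inhabited κ]

theorem sound {S : Asg κ} {φ : Vx κ → Pt} (h : ∀ p ∈ pieces S, Ok φ p) : S.Sat := by
  obtain ⟨hW, hE, hL, hU⟩ := forall_pieces.1 h
  refine ⟨fun a => lineOf true (φ ([a], 6, 0)) (φ ([a], 6, 1)),
    fun b => φ ([b], 0, 12 * NB S + 3), fun c hc => ?_⟩
  obtain ⟨j, hj, rfl⟩ := List.getElem_of_mem hc
  have hj' : S.getD j default = S[j] := by simp [hj]
  generalize S[j] = c at hc hj'
  let g := lineOf c.1 (φ ([c.2.1], 6, 0)) (φ ([c.2.1], 6, 1))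
  have w1 : (c.2.1, side c.1) ∈ wires S := mem_wires.2 (.inr ⟨side_cases _, c, hc, rfl⟩)
  have w2 : (c.2.2, 0) ∈ wires S := mem_wires.2 (.inl ⟨rfl, c, hc, rfl⟩)
  have l1 : ∀ k < 3, 0 < aff g (φ ([c.2.1], side c.1, 6 + k)) := fun k hk => by
    have := hL c.2.1 (mem_dd.2 (List.mem_map_of_mem hc)) k hk
    simp only [linePiece, ok_three, ok_two, and_true] at this
    rw [aff_lineOf]
    cases c.1
    · exact this.2
    · rw [orient_rot] at this
      exact this.1
  obtain ⟨m1, m2⟩ := wire_pack (hW _ w1) (hE _ w1) le_rfl (l1 0 (by norm_num)) (l1 1 (by norm_num))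
    (l1 2 (by norm_num))
  have l2 : ∀ k < 3, 0 < aff g (φ ([c.2.2], 0, 12 * j + 9 + k)) := fun k hk => by
    have := hU j hj k hk
    rw [hj'] at this
    simp only [usePiece, ok_three, ok_two, and_true, sg_true, sg_false, one_mul, neg_mul,
      neg_pos] at this
    obtain ⟨u1, u2, u3⟩ := this
    rw [orient_swap, neg_lt_zero] at u2
    rw [orient_rot] at u3
    exact tri_pos u1 u2 u3 (m2 (3 * j + k) (by unfold NB; omega) (by omega))
      (m1 _ (by omega) (by unfold NB; omega)) (m1 _ (by omega) (by unfold NB; omega))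
  have := (wire_pack (hW _ w2) (hE _ w2) (i := 12 * j + 9) (by omega) (l2 0 (by norm_num))
    (l2 1 (by norm_num)) (l2 2 (by norm_num))).1 (12 * NB S + 3) (by unfold NB; omega) le_rfl
  refine this.trans_eq ?_
  simp only [aff, g, lineOf, sg_true]
  ring

def small (p : Pt) (θ : ℝ) (k : ℕ) : Pt :=
  (p.1 + θ * (if k = 1 then 1 else 0), p.2 + θ * (if k = 2 then 1 else 0))

theorem cont_orient {f g h : ℝ → Pt} (hf : Continuous f) (hg : Continuous g) (hh : Continuous h) :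
    Continuous fun θ => orient (f θ) (g θ) (h θ) := by
  simp only [orient]; fun_prop

theorem ev_pos {f : ℝ → ℝ} (hf : Continuous f) (h : 0 < f 0) : ∀ᶠ θ in 𝓝[>] (0 : ℝ), 0 < f θ :=
  ((hf.tendsto 0).eventually (lt_mem_nhds h)).filter_mono nhdsWithin_le_nhds

def sgl (s : Bool) (g : V3) : V3 := (sg s * g.1, sg s * g.2.1, sg s * g.2.2)

omit [DecidableEq κ] [Inhabited κ] in
theorem exists_lines {S : Asg κ} (h : S.Sat) : ∃ (l : κ → V3) (p : κ → Pt),
    ∀ c ∈ S, (l c.2.1).1 ≠ 0 ∧ 0 < aff (sgl c.1 (l c.2.1)) (p c.2.2) := by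
  obtain ⟨l, p, h⟩ := h
  have : ∀ᶠ ε in 𝓝[>] (0 : ℝ), ∀ c ∈ S, (l c.2.1).1 + ε ≠ 0 ∧
      0 < aff (sgl c.1 ((l c.2.1).1 + ε, (l c.2.1).2)) (p c.2.2) := by
    refine ev_list _ fun c hc => Eventually.and ?_ (ev_pos ?_ ?_)
    · by_cases h0 : (l c.2.1).1 = 0
      · filter_upwards [self_mem_nhdsWithin] with ε hε
        rw [h0, zero_add]
        exact ne_of_gt hε
      · have hc : Continuous fun ε : ℝ => (l c.2.1).1 + ε := by fun_prop
        exact ((hc.tendsto 0).eventually_ne (by simpa using h0)).filter_mono nhdsWithin_le_nhds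
    · simp only [aff, sgl]; fun_prop
    · refine (h c hc).trans_eq ?_
      simp only [aff, sgl]; ring
  obtain ⟨ε, hε⟩ := this.exists
  exact ⟨fun a => ((l a).1 + ε, (l a).2), p, hε⟩

theorem sg_ne (s : Bool) : sg s ≠ 0 := by cases s <;> simp

theorem complete {S : Asg κ} (h : S.Sat) : ∃ φ : Vx κ → Pt, ∀ p ∈ pieces S, Ok φ p := by
  obtain ⟨l, p, h⟩ := exists_lines h
  have hne : ∀ s, ∀ c ∈ S, (sgl s (l c.2.1)).1 ≠ 0 := fun s c hc => mul_ne_zero (sg_ne _) (h c hc).1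
  obtain ⟨L, hL, hL'⟩ := ((eventually_gt_atTop (0 : ℝ)).and
    (ev_list S fun c hc => big_ev (hne c.1 c hc) (h c hc).2)).exists
  let C : ℝ → κ → ℕ → ℕ → Pt := fun θ a τ =>
    if τ = 0 then small (p a) θ else big (sgl (decide (τ = 1)) (l a)) L
  let φ : ℝ → Vx κ → Pt := fun θ v =>
    if v.2.1 < 3 then wq (C θ (v.1.headD default) v.2.1) θ v.2.2
    else if v.2.1 < 6 then ws (C θ (v.1.headD default) (v.2.1 - 3)) θ v.2.2
    else (-(l (v.1.headD default)).2.2 / (l (v.1.headD default)).1 +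
      v.2.2 * (l (v.1.headD default)).2.1, -(v.2.2 * (l (v.1.headD default)).1))
  have f1 : ∀ θ a τ i, τ < 3 → φ θ ([a], τ, i) = wq (C θ a τ) θ i := fun θ a τ i h => by
    simp [φ, h]
  have f2 : ∀ θ a τ i, τ < 3 → φ θ ([a], τ + 3, i) = ws (C θ a τ) θ i := fun θ a τ i h => by
    simp [φ, show τ + 3 < 6 by omega]
  have f3 : ∀ θ s a, C θ a (side s) = big (sgl s (l a)) L := fun θ s a => by
    cases s <;> simp [C, side]
  have f4 : ∀ θ b, C θ b 0 = small (p b) θ := fun θ b => by simp [C]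
  have hs : ∀ s, side s < 3 := fun s => by rcases side_cases s with h | h <;> omega
  have e1 : ∀ᶠ θ in 𝓝[>] (0 : ℝ), ∀ j ∈ List.range S.length, ∀ k ∈ List.range 3,
      Ok (φ θ) (usePiece (S.getD j default) j k) := by
    refine ev_list _ fun j hj => ev_list _ fun k _ => ?_
    have hc : S.getD j default ∈ S := by
      have := List.mem_range.1 hj
      simp [this]
    generalize S.getD j default = c at hc
    obtain ⟨u1, u2, u3⟩ := hL' c hc
    simp only [usePiece, ok_three, ok_two, and_true, sg_true, sg_false, one_mul, neg_mul,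
      f1 _ _ _ _ (hs _), f2 _ _ _ _ (hs _), f1 _ _ 0 _ (by norm_num), f3, f4]
    have c1 : ∀ D i, Continuous fun θ => wq D θ i := fun D i => by simp only [wq]; fun_prop
    have c2 : ∀ D i, Continuous fun θ => ws D θ i := fun D i => by simp only [ws, wq]; fun_prop
    have c3 : ∀ x i, Continuous fun θ => wq (small x θ) θ i := fun D i => by
      simp only [wq, cen, small]; fun_prop
    have z : ∀ x i, small x 0 i = x := fun x i => by simp [small]
    have m0 : (12 * (3 * j + k) + 12) % 3 = 0 := by omega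
    have m1 : (12 * (3 * j + k) + 16) % 3 = 1 := by omega
    have m2 : (12 * (3 * j + k) + 14) % 3 = 2 := by omega
    refine (ev_pos (cont_orient (c2 _ _) (c1 _ _) (c3 _ _)) ?_).and
      ((ev_pos (cont_orient (c1 _ _) (c3 _ _) (c1 _ _)).neg ?_).and
        (ev_pos (cont_orient (c3 _ _) (c1 _ _) (c2 _ _)) ?_))
    · rwa [wq_zero, wq_zero, ws_zero, z, m0, m1]
    · rwa [Pi.neg_apply, wq_zero, wq_zero, wq_zero, z, m1, m2, ← orient_swap]
    · rwa [wq_zero, wq_zero, ws_zero, z, m0, m2, orient_rot]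
  obtain ⟨θ, hθ, h0, h1⟩ := (e1.and (Ioo_mem_nhdsGT (zero_lt_one' ℝ))).exists
  have hC : ∀ w ∈ wires S, 0 < orient (C θ w.1 w.2 0) (C θ w.1 w.2 1) (C θ w.1 w.2 2) := by
    intro w hw
    rcases mem_wires.1 hw with ⟨h2, -⟩ | ⟨h2, c, hc, h3⟩
    · rw [h2, f4]
      simpa [orient, small] using h0.ne'
    · simp only [C, if_neg (show ¬w.2 = 0 by omega), ← h3]
      exact (big_spec (hne _ c hc) hL).1
  refine ⟨φ θ, forall_pieces.2 ⟨fun w hw t _ => ?_, fun w hw => ?_, fun a ha k _ => ?_,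
    fun j hj k hk => hθ j (List.mem_range.2 hj) k (List.mem_range.2 hk)⟩⟩
  · simp only [inst, tA, tB, tC, List.map_cons, List.map_nil, ok_three, ok_two, sg_true, sg_false,
      one_mul, neg_mul, neg_pos, add_zero, and_true, f1 _ _ _ _ (wires_lt hw),
      f2 _ _ _ _ (wires_lt hw)]
    have q1 := wq1 h0 h1 (hC w hw)
    have q2 := wq2 h0 h1 (hC w hw)
    exact ⟨⟨q2 _, q1 _, q2 _, q1 _, q2 _, q1 _, q2 _, ws1 h0 h1 (hC w hw) _,
      ws2 h0 h1 (hC w hw) (12 * t + 12), ws3 h0 h1 (hC w hw) _⟩,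
      ⟨q1 _, q2 _, q1 _, q2 _, q1 _, q2 _, q1 _, q2 _⟩,
      q1 _, q2 _, q1 _, q2 _, q1 _, q2 _, q1 _, q2 _⟩
  · simp only [inst, tE, List.map_cons, List.map_nil, ok_three, ok_two, sg_true, one_mul, add_zero,
      and_true, f1 _ _ _ _ (wires_lt hw)]
    exact wq3 h1 (hC w hw) _
  · obtain ⟨c, hc, rfl⟩ := List.mem_map.1 (mem_dd.1 ha)
    have hl := (h c hc).1
    have o : ∀ s x, sg s * orient (φ θ ([c.2.1], 6, 0)) (φ θ ([c.2.1], 6, 1)) x =
        aff (sgl s (l c.2.1)) x := fun s x => by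
      simp [φ, orient, aff, sgl]
      field_simp
      ring
    have r : ∀ s, 0 < aff (sgl s (l c.2.1)) (φ θ ([c.2.1], side s, 6 + k)) := fun s => by
      rw [f1 _ _ _ _ (hs _), f3]
      obtain ⟨-, b0, b1, b2⟩ := big_spec (hne s c hc) hL
      exact wq_aff h0 h1 b0 b1 b2 _
    simp only [linePiece, ok_three, ok_two, and_true]
    rw [orient_rot, o, o]
    exact ⟨r true, r false⟩

end Pool.Agent.P.MP_70cdcc_lc
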