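import Pool.Agent.P.MP_70cdcc_lc.Wire
import Pool.Agent.Lib.ETR.Sign

/-! The pieces of the walk built from a list of point-line demands; every vertex is used at most
three times. -/

namespace Pool.Agent.P.MP_70cdcc_lc

open Pool.Agent.Lib.ETR Pool.Agent.Lib.NP Polynomial

section dd

variable {α : Type} [DecidableEq α]

def dd (l : List α) : List α := l.foldl (fun s a => if a ∈ s then s else a :: s) []

theorem dd_aux (l s : List α) (hs : s.Nodup) :
    (l.foldl (fun s a => if a ∈ s then s else a :: s) s).Nodup ∧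
      ∀ x, x ∈ l.foldl (fun s a => if a ∈ s then s else a :: s) s ↔ x ∈ s ∨ x ∈ l := by
  induction l generalizing s with
  | nil => simpa using hs
  | cons a l ih =>
    rw [List.foldl_cons]
    split_ifs with h
    · refine ⟨(ih s hs).1, fun x => ?_⟩
      rw [(ih s hs).2, List.mem_cons]
      exact ⟨fun h => by tauto, fun h' => by rcases h' with h' | rfl | h' <;> tauto⟩
    · refine ⟨(ih _ (List.nodup_cons.2 ⟨h, hs⟩)).1, fun x => ?_⟩
      rw [(ih _ (List.nodup_cons.2 ⟨h, hs⟩)).2, List.mem_cons, List.mem_cons]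
      tauto

theorem nodup_dd (l : List α) : (dd l).Nodup := (dd_aux l [] List.nodup_nil).1

theorem mem_dd {l : List α} {x : α} : x ∈ dd l ↔ x ∈ l := by
  simpa [dd] using (dd_aux l [] List.nodup_nil).2 x

theorem pt_dd [Enc α] : PT (dd : List α → List α) := by
  refine PT.foldl_add (f := fun _ s a => if a ∈ s then s else a :: s) (by fun_prop) (by fun_prop)
    (by fun_prop) (2 * X + 1) fun l s a => ?_
  split_ifs <;> simp
  omega

end dd

abbrev Vx (κ : Type) := List κ × ℕ × ℕ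
abbrev Ent (κ : Type) := Vx κ × ℕ × Bool
abbrev Tmp := List (ℕ × ℕ × ℕ × Bool)

def tA : Tmp := [(0, 1, 0, false), (0, 3, 0, true), (0, 4, 0, false), (0, 6, 0, true),
  (0, 7, 0, false), (0, 9, 0, true), (0, 10, 0, false), (0, 12, 0, true), (0, 13, 1, false),
  (3, 12, 0, true), (0, 15, 1, true), (0, 12, 1, true)]

def tB : Tmp := [(0, 5, 0, true), (0, 6, 1, false), (0, 8, 0, true), (0, 9, 1, false),
  (0, 11, 0, true), (0, 12, 2, false), (0, 14, 0, true), (0, 15, 2, false), (0, 17, 1, true),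
  (0, 18, 2, true)]

def tC : Tmp := [(0, 7, 1, true), (0, 8, 1, false), (0, 10, 1, true), (0, 11, 1, false),
  (0, 13, 2, true), (0, 14, 1, false), (0, 16, 1, true), (0, 17, 2, false), (0, 19, 2, true),
  (0, 20, 2, true)]

def tE : Tmp := [(0, 1, 0, true), (0, 2, 2, true), (0, 3, 0, true)]

variable {κ : Type}

def inst (w : κ × ℕ) (t : ℕ) (T : Tmp) : List (Ent κ) :=
  T.map fun e => (([w.1], w.2 + e.1, 12 * t + e.2.1), e.2.2)

def linePiece (a : κ) (k : ℕ) : List (Ent κ) :=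
  [(([a], 1, 6 + k), 2, true), (([a], 6, 0), k, false), (([a], 6, 1), k, true),
    (([a], 2, 6 + k), 2, true)]

def side (s : Bool) : ℕ := bif s then 1 else 2

def usePiece (c : Bool × κ × κ) (j k : ℕ) : List (Ent κ) :=
  [(([c.2.1], side c.1 + 3, 12 * (3 * j + k) + 12), 1, true),
    (([c.2.1], side c.1, 12 * (3 * j + k) + 16), 2, false),
    (([c.2.2], 0, 12 * j + 9 + k), 2, true),
    (([c.2.1], side c.1, 12 * (3 * j + k) + 14), 2, true),
    (([c.2.1], side c.1 + 3, 12 * (3 * j + k) + 12), 2, true)]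

def NB (S : Asg κ) : ℕ := 3 * S.length + 1

variable [DecidableEq κ]

def lns (S : Asg κ) : List κ := dd (S.map fun c => c.2.1)

def wires (S : Asg κ) : List (κ × ℕ) :=
  ((dd (S.map fun c => c.2.2)).map fun b => (b, 0)) ++ (lns S).flatMap fun a => [(a, 1), (a, 2)]

def pW (S : Asg κ) : List (List (Ent κ)) := (wires S).flatMap fun w =>
  (List.range (NB S)).flatMap fun t => [inst w t tA, inst w t tB, inst w t tC]

def pE (S : Asg κ) : List (List (Ent κ)) := (wires S).map fun w => inst w (NB S) tE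

def pL (S : Asg κ) : List (List (Ent κ)) :=
  (lns S).flatMap fun a => (List.range 3).map fun k => linePiece a k

theorem mem_wires {S : Asg κ} {w : κ × ℕ} : w ∈ wires S ↔ (w.2 = 0 ∧ ∃ c ∈ S, c.2.2 = w.1) ∨
    ((w.2 = 1 ∨ w.2 = 2) ∧ ∃ c ∈ S, c.2.1 = w.1) := by
  obtain ⟨a, τ⟩ := w
  simp only [wires, lns, List.mem_append, List.mem_map, mem_dd, List.mem_flatMap, List.mem_cons,
    List.not_mem_nil, or_false, Prod.mk.injEq]
  refine or_congr ⟨?_, ?_⟩ ⟨?_, ?_⟩
  · rintro ⟨_, h, rfl, rfl⟩; exact ⟨rfl, h⟩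
  · rintro ⟨rfl, h⟩; exact ⟨_, h, rfl, rfl⟩
  · rintro ⟨_, h, ⟨rfl, rfl⟩ | ⟨rfl, rfl⟩⟩
    exacts [⟨.inl rfl, h⟩, ⟨.inr rfl, h⟩]
  · rintro ⟨rfl | rfl, h⟩
    exacts [⟨_, h, .inl ⟨rfl, rfl⟩⟩, ⟨_, h, .inr ⟨rfl, rfl⟩⟩]

theorem wires_lt {S : Asg κ} {w : κ × ℕ} (h : w ∈ wires S) : w.2 < 3 := by
  rcases mem_wires.1 h with h | h <;> omega

theorem nodup_fm {ι β : Type} {I : List ι} (hI : I.Nodup) {f : ι → List β}
    (h1 : ∀ i ∈ I, (f i).Nodup) (h2 : ∀ i ∈ I, ∀ j ∈ I, ∀ x ∈ f i, x ∈ f j → i = j) :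
    (I.flatMap f).Nodup :=
  List.nodup_flatMap.2 ⟨h1, hI.pairwise_of_forall_ne fun i hi j hj hij _ hx hx' =>
    hij (h2 i hi j hj _ hx hx')⟩

theorem nodup_wires (S : Asg κ) : (wires S).Nodup := by
  refine List.nodup_append.2 ⟨(nodup_dd _).map fun _ _ h => congrArg Prod.fst h,
    nodup_fm (nodup_dd _) (by simp) ?_, ?_⟩
  · simp only [List.mem_cons, List.not_mem_nil, or_false]
    rintro a - b - x (rfl | rfl) (h | h) <;> exact congrArg Prod.fst h
  · simp only [List.mem_map, List.mem_flatMap, List.mem_cons, List.not_mem_nil, or_false]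
    rintro _ ⟨b, -, rfl⟩ _ ⟨a, -, rfl | rfl⟩ <;> simp

variable [Inhabited κ]

def pU (S : Asg κ) : List (List (Ent κ)) := (List.range S.length).flatMap fun j =>
  (List.range 3).map fun k => usePiece (S.getD j default) j k

def pieces (S : Asg κ) : List (List (Ent κ)) := pW S ++ pE S ++ pL S ++ pU S

theorem forall_pieces {S : Asg κ} {Q : List (Ent κ) → Prop} : (∀ p ∈ pieces S, Q p) ↔
    (∀ w ∈ wires S, ∀ t < NB S, Q (inst w t tA) ∧ Q (inst w t tB) ∧ Q (inst w t tC)) ∧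
    (∀ w ∈ wires S, Q (inst w (NB S) tE)) ∧ (∀ a ∈ lns S, ∀ k < 3, Q (linePiece a k)) ∧
    ∀ j < S.length, ∀ k < 3, Q (usePiece (S.getD j default) j k) := by
  simp only [pieces, pW, pE, pL, pU, List.forall_mem_append, List.forall_mem_flatMap,
    List.forall_mem_map, List.forall_mem_cons, List.mem_range, List.not_mem_nil, false_imp_iff,
    implies_true, and_true, and_assoc]

theorem good_pieces (S : Asg κ) : ∀ p ∈ pieces S, Good p :=
  forall_pieces.2 ⟨fun _ _ _ _ =>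
    ⟨⟨⟨_, _, _, _, rfl⟩, [_, _, _, _, _, _, _, _, _], _, _, _, _, _, rfl⟩,
      ⟨⟨_, _, _, _, rfl⟩, [_, _, _, _, _, _, _], _, _, _, _, _, rfl⟩,
      ⟨⟨_, _, _, _, rfl⟩, [_, _, _, _, _, _, _], _, _, _, _, _, rfl⟩⟩,
    fun _ _ => ⟨⟨_, _, _, _, rfl⟩, [], _, _, _, _, _, rfl⟩,
    fun _ _ _ _ => ⟨⟨_, _, _, _, rfl⟩, [_], _, _, _, _, _, rfl⟩,
    fun _ _ _ _ => ⟨⟨_, _, _, _, rfl⟩, [_, _], _, _, _, _, _, rfl⟩⟩

theorem fresh_pieces (S : Asg κ) : ∀ p ∈ pieces S, ∀ e ∈ p, e.1.1 ≠ [] ∧ e.2.1 < 3 := by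
  refine forall_pieces.2 ⟨fun _ _ _ _ => ?_, fun _ _ => ?_, fun _ _ _ h => ?_, fun _ _ _ _ => ?_⟩
  · simp [inst, tA, tB, tC]
  · simp [inst, tE]
  · simp [linePiece, h]
  · simp [usePiece]

def key (e : Ent κ) : Vx κ × ℕ := (e.1, e.2.1)

omit [DecidableEq κ] [Inhabited κ] in
theorem side_cases (s : Bool) : side s = 1 ∨ side s = 2 := by cases s <;> simp [side]

theorem tT_inj : ∀ e ∈ tA ++ tB ++ tC, ∀ e' ∈ tA ++ tB ++ tC, e.1 = e'.1 →
    e.2.1 % 12 = e'.2.1 % 12 → e.2.2.1 = e'.2.2.1 → e = e' := by decide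

theorem tT_cls : ∀ e ∈ tA ++ tB ++ tC, (e.1 = 3 ∧ e.2.2.1 = 0) ∨ (e.1 = 0 ∧ e.2.1 ≤ 20 ∧
    ¬(e.2.2.1 = 2 ∧ (e.2.1 % 12 = 2 ∨ e.2.1 % 12 = 4 ∨ 9 ≤ e.2.1 % 12 ∨ e.2.1 < 12)) ∧
    ¬(e.2.2.1 = 0 ∧ (e.2.1 = 13 ∨ e.2.1 = 15))) := by decide

theorem nodup_pieces (S : Asg κ) :
    ((pieces S).flatten.map fun e => (e.1, e.2.1)).Nodup := by
  have eW : (pW S).flatten.map key = (wires S).flatMap fun w => (List.range (NB S)).flatMap
      fun t => (tA ++ tB ++ tC).map fun e => (([w.1], w.2 + e.1, 12 * t + e.2.1), e.2.2.1) := by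
    simp only [pW, ← List.flatMap_id, List.flatMap_assoc, List.map_flatMap, id, inst,
      List.flatMap_cons, List.flatMap_nil, List.map_map, List.map_append, List.append_nil,
      List.append_assoc]
    rfl
  have eE : (pE S).flatten.map key = (wires S).flatMap fun w => (inst w (NB S) tE).map key := by
    simp only [pE, ← List.flatMap_id, List.flatMap_map, List.map_flatMap, id]
  have eL : (pL S).flatten.map key = (lns S).flatMap fun a => (List.range 3).flatMap
      fun k => (linePiece a k).map key := by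
    simp only [pL, ← List.flatMap_id, List.flatMap_assoc, List.flatMap_map, List.map_flatMap, id]
  have eU : (pU S).flatten.map key = (List.range S.length).flatMap fun j => (List.range 3).flatMap
      fun k => (usePiece (S.getD j default) j k).map key := by
    simp only [pU, ← List.flatMap_id, List.flatMap_assoc, List.flatMap_map, List.map_flatMap, id]
  have nW : ((pW S).flatten.map key).Nodup := by
    rw [eW]
    refine nodup_fm (nodup_wires S) (fun w _ => nodup_fm List.nodup_range (fun t _ =>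
      List.Nodup.map_on (fun e he e' he' h => ?_) (by decide)) ?_) ?_
    · simp only [Prod.mk.injEq] at h
      exact tT_inj e he e' he' (by omega) (by omega) h.2
    · simp only [List.mem_map]
      rintro t - t' - _ ⟨e, he, rfl⟩ ⟨e', he', h⟩
      simp only [Prod.mk.injEq] at h
      obtain rfl := tT_inj e he e' he' (by omega) (by omega) h.2.symm
      omega
    · simp only [List.mem_flatMap, List.mem_map]
      rintro w hw w' hw' _ ⟨t, -, e, he, rfl⟩ ⟨t', -, e', he', h⟩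
      simp only [Prod.mk.injEq, List.cons.injEq] at h
      have := wires_lt hw
      have := wires_lt hw'
      have := tT_cls e he
      have := tT_cls e' he'
      exact Prod.ext h.1.1.1.symm (by omega)
  have nE : ((pE S).flatten.map key).Nodup := by
    rw [eE]
    refine nodup_fm (nodup_wires S) (by simp [inst, tE, key]) ?_
    simp only [inst, List.mem_map, key]
    rintro w - w' - _ ⟨_, ⟨e, he, rfl⟩, rfl⟩ ⟨_, ⟨e', he', rfl⟩, h⟩
    simp only [Prod.mk.injEq, List.cons.injEq] at h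
    have h0 : ∀ e ∈ tE, e.1 = 0 := by decide
    have := h0 e he
    have := h0 e' he'
    exact Prod.ext h.1.1.1.symm (by omega)
  have nL : ((pL S).flatten.map key).Nodup := by
    rw [eL]
    refine nodup_fm (nodup_dd _) (fun a _ => nodup_fm List.nodup_range
      (by simp [linePiece, key]) ?_) ?_
    · simp only [linePiece, key, List.map_cons, List.map_nil, List.mem_cons, List.not_mem_nil,
        or_false]
      rintro k - k' - _ (rfl | rfl | rfl | rfl) <;> simp
    · simp only [linePiece, key, List.map_cons, List.map_nil, List.mem_cons, List.not_mem_nil,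
        or_false, List.mem_flatMap]
      rintro a - a' - _ ⟨k, -, rfl | rfl | rfl | rfl⟩ ⟨k', -, h | h | h | h⟩ <;>
        simpa using congrArg (fun x => x.1.1) h
  have mU : ∀ (c : Bool × κ × κ) j k, ∀ x ∈ (usePiece c j k).map key,
      (x.1.2.1 = 0 ∧ x.2 = 2 ∧ x.1.2.2 = 12 * j + 9 + k) ∨
      ((x.1.2.1 = 1 ∨ x.1.2.1 = 2) ∧ x.2 = 2 ∧
        (x.1.2.2 = 12 * (3 * j + k) + 14 ∨ x.1.2.2 = 12 * (3 * j + k) + 16)) ∨
      ((x.1.2.1 = 4 ∨ x.1.2.1 = 5) ∧ 1 ≤ x.2 ∧ x.1.2.2 = 12 * (3 * j + k) + 12) := by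
    intro c j k
    rcases side_cases c.1 with h | h <;> simp [usePiece, key, h]
  have nU : ((pU S).flatten.map key).Nodup := by
    rw [eU]
    refine nodup_fm List.nodup_range (fun j _ => nodup_fm List.nodup_range (fun k _ => ?_) ?_) ?_
    · have := side_cases (S.getD j default).1
      simp [usePiece, key]
      omega
    · intro k _ k' _ x h h'
      have := mU _ _ _ x h
      have := mU _ _ _ x h'
      omega
    · simp only [List.mem_flatMap, List.mem_range]
      rintro j - j' - x ⟨k, hk, h⟩ ⟨k', hk', h'⟩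
      have := mU _ _ _ x h
      have := mU _ _ _ x h'
      omega
  have cW : ∀ x ∈ (pW S).flatten.map key, (3 ≤ x.1.2.1 ∧ x.1.2.1 < 6 ∧ x.2 = 0) ∨ (x.1.2.1 < 3 ∧
      ¬(x.2 = 2 ∧ (x.1.2.2 % 12 = 2 ∨ x.1.2.2 % 12 = 4 ∨ 9 ≤ x.1.2.2 % 12 ∨ x.1.2.2 < 12)) ∧
      ¬(x.2 = 0 ∧ (x.1.2.2 = 12 * NB S + 1 ∨ x.1.2.2 = 12 * NB S + 3))) := by
    rw [eW]
    simp only [List.forall_mem_flatMap, List.forall_mem_map, List.mem_range]
    intro w hw t ht e he
    have := wires_lt hw
    have := tT_cls e he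
    omega
  have cE : ∀ x ∈ (pE S).flatten.map key, x.1.2.1 < 3 ∧ ((x.2 = 0 ∧ (x.1.2.2 = 12 * NB S + 1 ∨
      x.1.2.2 = 12 * NB S + 3)) ∨ (x.2 = 2 ∧ x.1.2.2 = 12 * NB S + 2)) := by
    rw [eE]
    simp only [List.forall_mem_flatMap]
    intro w hw
    simp [inst, tE, key, wires_lt hw]
  have cL : ∀ x ∈ (pL S).flatten.map key, x.1.2.1 = 6 ∨
      (x.1.2.1 < 3 ∧ x.2 = 2 ∧ 6 ≤ x.1.2.2 ∧ x.1.2.2 ≤ 8) := by
    rw [eL]
    simp only [List.forall_mem_flatMap, List.mem_range]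
    intro a _ k hk
    simp [linePiece, key]
    omega
  have cU : ∀ x ∈ (pU S).flatten.map key, (3 ≤ x.1.2.1 ∧ x.1.2.1 < 6 ∧ 1 ≤ x.2) ∨ (x.1.2.1 < 3 ∧
      x.2 = 2 ∧ (x.1.2.2 % 12 = 4 ∨ 9 ≤ x.1.2.2 % 12 ∨
        (x.1.2.2 % 12 = 2 ∧ x.1.2.2 < 12 * NB S))) := by
    rw [eU]
    simp only [List.forall_mem_flatMap, List.mem_range, NB]
    intro j hj k hk x hx
    have := mU _ _ _ x hx
    omega
  change ((pieces S).flatten.map key).Nodup
  simp only [pieces, List.flatten_append, List.map_append, List.nodup_append, List.mem_append]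
  refine ⟨⟨⟨nW, nE, ?_⟩, nL, ?_⟩, nU, ?_⟩
  · rintro x h _ h' rfl
    have := cW x h
    have := cE x h'
    omega
  · rintro x (h | h) _ h' rfl <;> have := cL x h'
    · have := cW x h
      omega
    · have := cE x h
      omega
  · rintro x ((h | h) | h) _ h' rfl <;> have := cU x h'
    · have := cW x h
      omega
    · have := cE x h
      omega
    · have := cL x h
      omega

end Pool.Agent.P.MP_70cdcc_lc
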