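import Pool.Agent.P.MP_70cdcc_lc.Gadget
import Pool.Agent.Lib.ETR.Hard

/-! The reduction, hardness and membership. -/

namespace Pool.Agent.P.MP_70cdcc_lc

open Pool.Agent.Lib.ETR Pool.Agent.Lib.NP N487b59b3 N68a2faeb N793a5b8e

theorem DW_encode (k : ℕ) (W : List (List Bool)) (σ : List Bool) : DW k (enc (W, σ)) = true ↔
    σ.length = W.length - 2 ∧ (∀ v, W.count v ≤ k) ∧ ∃ φ : List Bool → Pt, Obeys φ W σ := by
  simp only [DW, decide_eq_true_eq]
  constructor
  · rintro ⟨W', σ', h1, h2, h3, φ, -, h4⟩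
    obtain ⟨rfl, rfl⟩ := Prod.mk.inj (Enc.inj (a₂ := (W', σ')) h1)
    exact ⟨h2, h3, φ, h4⟩
  · rintro ⟨h1, h2, φ, h3⟩
    exact ⟨W, σ, rfl, h1, h2, exists_injOn h3⟩

theorem obeys_ok {V U : Type} (f : V → U) (φ : U → Pt) (L : List (V × ℕ × Bool)) :
    Obeys φ (L.map fun e => f e.1) ((L.map fun e => e.2.2).take (L.length - 2)) ↔
      Ok (fun v => φ (f v)) L := by
  rw [obeys_iff, ok_iff]
  constructor
  · intro h j hj
    have h1 : j + 2 < (L.map fun e => f e.1).length := by simpa using hj
    have h2 : j < ((L.map fun e => e.2.2).take (L.length - 2)).length := by simp; omega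
    have := h j h1 h2
    rwa [List.getElem_take, List.getElem_map, List.getElem_map, List.getElem_map,
      List.getElem_map] at this
  · intro h j hj _
    simpa only [List.getElem_map, List.getElem_take] using h j (by simpa using hj)

variable {κ : Type} [DecidableEq κ] [Inhabited κ]

def dum (m : ℕ) : Vx κ := ([], 7, m)

omit [DecidableEq κ] [Inhabited κ] in
theorem dum_inj : Function.Injective (dum : ℕ → Vx κ) := fun _ _ h => by simpa [dum] using h

def walk (S : Asg κ) : List (Ent κ) :=
  (List.range (pieces S).length).flatMap fun m => (pieces S).getD m [] ++ dums dum m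

theorem walk_eq (S : Asg κ) : walk S = joinR dum 0 (pieces S) := by
  simp only [walk, joinR_eq, zero_add]

theorem fresh (S : Asg κ) : ∀ p ∈ pieces S, ∀ e ∈ p, ∀ m, dum m ≠ e.1 :=
  fun p hp e he _ h => (fresh_pieces S p hp e he).1 (by rw [← h]; rfl)

theorem sat_iff (S : Asg κ) : S.Sat ↔ ∃ φ, Ok φ (walk S) := by
  rw [walk_eq]
  refine ⟨fun h => ?_, fun ⟨φ, h⟩ => sound (ok_of_join h)⟩
  obtain ⟨φ, h⟩ := complete h
  obtain ⟨ψ, h⟩ := join_ok dum_inj _ 0 (fun p hp => ⟨good_pieces S p hp, h p hp⟩) (fresh S)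
  exact ⟨_, h⟩

variable [Enc κ]

theorem count_walk (S : Asg κ) (v : List Bool) :
    ((walk S).map fun e => enc e.1).count v ≤ 3 := by
  have h1 := nodup_join dum_inj _ 0 (nodup_pieces S) (fresh S)
  rw [← walk_eq] at h1
  have := count_le_three (L := (walk S).map fun e => (enc e.1, e.2))
    (by
      have := h1.map (f := fun x => (enc x.1, x.2)) fun x y h =>
        Prod.ext (Enc.inj (Prod.mk.inj h).1) (Prod.mk.inj h).2
      rw [List.map_map] at this ⊢
      exact this)
    (by
      simp only [List.forall_mem_map]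
      intro e he
      rw [walk_eq] at he
      rcases mem_joinR he with ⟨p, hp, h⟩ | ⟨m, -, rfl⟩
      · exact (fresh_pieces S p hp e h).2
      · simp) v
  rw [List.map_map] at this
  exact this

def red (S : Asg κ) : List Bool :=
  enc ((walk S).map fun e => enc e.1, ((walk S).map fun e => e.2.2).take ((walk S).length - 2))

theorem pt_red : PT (red : Asg κ → List Bool) := by
  have h1 : PT (lns : Asg κ → _) := pt_dd.comp (by fun_prop)
  have h2 : PT (fun S : Asg κ => dd (S.map fun c => c.2.2)) := pt_dd.comp (by fun_prop)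
  have h3 : PT (wires : Asg κ → _) := by unfold wires; fun_prop
  have h4 : PT (pieces : Asg κ → _) := by
    unfold pieces pW pE pL pU inst linePiece usePiece side NB
    fun_prop
  have h5 : PT (walk : Asg κ → _) := by
    unfold walk dums dum
    fun_prop
  unfold red
  fun_prop

theorem dw_hard {k : ℕ} (hk : 3 ≤ k) : ∀ L ∈ ExistsR, ManyOneReducible L (DW k) := by
  refine ERHardPT.hard (asg_hard.reduce pt_red fun S => ?_)
  rw [red, DW_encode, sat_iff]
  simp only [obeys_ok]
  refine ⟨fun ⟨φ, h⟩ => ⟨by simp, fun v => (count_walk S v).trans hk, Function.extend enc φ 0, ?_⟩,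
    fun ⟨_, _, φ, h⟩ => ⟨_, h⟩⟩
  simpa only [Enc.inj.extend_apply] using h

def dtT (u v w : List Bool) : Term :=
  .add (.mul (.add (nv (v, true)) (.neg (nv (u, true)))) (.add (nv (w, false)) (.neg (nv (u, false)))))
    (.neg (.mul (.add (nv (v, false)) (.neg (nv (u, false))))
      (.add (nv (w, true)) (.neg (nv (u, true))))))

def pos (x : List Bool → ℝ) (u : List Bool) : Pt := ((nv (u, true)).eval x, (nv (u, false)).eval x)

theorem eval_dtT (x : List Bool → ℝ) (u v w : List Bool) :
    (dtT u v w).eval x = orient (pos x u) (pos x v) (pos x w) := by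
  simp only [dtT, Term.eval, orient, pos]
  ring

def body (W : List (List Bool)) (σ : List Bool) : Formula :=
  bigAnd ((List.range σ.length).map fun j => bif σ.getD j false then
    .lt .zero (dtT (W.getD j []) (W.getD (j + 1) []) (W.getD (j + 2) []))
    else .lt (dtT (W.getD j []) (W.getD (j + 1) []) (W.getD (j + 2) [])) .zero)

theorem holds_body {W : List (List Bool)} {σ : List Bool} (h : σ.length = W.length - 2)
    (x : List Bool → ℝ) : (body W σ).Holds x ↔ Obeys (pos x) W σ := by
  simp only [body, holds_bigAnd, List.forall_mem_map, List.mem_range, Obeys]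
  refine forall_congr' fun j => ⟨fun H h1 h2 => ?_, fun H h2 => ?_⟩
  · have := H h2
    rw [List.getD_eq_getElem _ _ h2, List.getD_eq_getElem _ _ h1,
      List.getD_eq_getElem _ _ (show j + 1 < _ by omega),
      List.getD_eq_getElem _ _ (show j < _ by omega)] at this
    cases h3 : σ[j] <;> simpa [h3, Formula.Holds, eval_dtT, Term.eval] using this
  · have h1 : j + 2 < W.length := by omega
    have := H h1 h2
    rw [List.getD_eq_getElem _ _ h2, List.getD_eq_getElem _ _ h1,
      List.getD_eq_getElem _ _ (show j + 1 < _ by omega),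
      List.getD_eq_getElem _ _ (show j < _ by omega)]
    cases h3 : σ[j] <;> simpa [h3, Formula.Holds, eval_dtT, Term.eval] using this

theorem sat_body {W : List (List Bool)} {σ : List Bool} (h : σ.length = W.length - 2) :
    (∃ x, (body W σ).Holds x) ↔ ∃ φ : List Bool → Pt, Obeys φ W σ := by
  simp only [holds_body h]
  refine ⟨fun ⟨x, h⟩ => ⟨_, h⟩, fun ⟨φ, h⟩ => ?_⟩
  obtain ⟨x, hx⟩ := exists_valuation fun u : List Bool × Bool => bif u.2 then (φ u.1).1 else (φ u.1).2
  have : pos x = φ := funext fun u => by simp [pos, hx]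
  exact ⟨x, this ▸ h⟩

def chk (k : ℕ) (W : List (List Bool)) : Bool :=
  W.all fun v => decide (W.countP (fun u => u == v) ≤ k)

theorem chk_iff (k : ℕ) (W : List (List Bool)) : chk k W = true ↔ ∀ v, W.count v ≤ k := by
  simp only [chk, List.all_eq_true, decide_eq_true_eq]
  refine ⟨fun h v => ?_, fun h v _ => h v⟩
  by_cases hv : v ∈ W
  · exact h v hv
  · rw [List.count_eq_zero_of_not_mem hv]; exact Nat.zero_le _

theorem dw_mem (k : ℕ) : DW k ∈ ExistsR := by
  obtain ⟨d, hd, hd'⟩ := HasDec.bool.list.list.prod HasDec.bool.list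
  refine mem_ExistsR_of (fun x => bif x == enc (d x) && (d x).2.length == (d x).1.length - 2 &&
    chk k (d x).1 then body (d x).1 (d x).2 else ff)
    (by unfold chk body dtT; fun_prop) fun x => ⟨fun h => ?_, fun ⟨w, h⟩ => ?_⟩
  · have h0 := h
    simp only [DW, decide_eq_true_eq] at h0
    obtain ⟨W, σ, rfl, -⟩ := h0
    obtain ⟨h1, h2, h3⟩ := (DW_encode k W σ).1 h
    have h4 : d (bitEncode (W, σ)) = (W, σ) := hd' _
    have h5 : bitEncode (W, σ) = enc (W, σ) := rfl
    simp only [h4, (chk_iff k W).2 h2]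
    simpa [h5, h1] using (sat_body h1).2 h3
  · rw [Bool.cond_eq_ite] at h
    split_ifs at h with h1
    · simp only [Bool.and_eq_true, beq_iff_eq] at h1
      obtain ⟨⟨h1, h2⟩, h3⟩ := h1
      rw [h1]
      exact (DW_encode k (d x).1 (d x).2).2 ⟨h2, (chk_iff _ _).1 h3, (sat_body h2).1 ⟨w, h⟩⟩
    · exact absurd h (holds_ff w)

end Pool.Agent.P.MP_70cdcc_lc
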