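import Pool.Agent.P.MP_70cdcc_lc.Defs
import Pool.Agent.Lib.ETR.Cluster

/-! Labelled walks, perturbation to an injective placement, and joining pieces by fresh vertices. -/

namespace Pool.Agent.P.MP_70cdcc_lc

open Pool.Agent.Lib.ETR Filter Topology

abbrev Pt := ℝ × ℝ

variable {V : Type}

/-- Entries are (vertex, slot, label). -/
def Ok (φ : V → Pt) : List (V × ℕ × Bool) → Prop
  | a :: b :: c :: l => 0 < sg a.2.2 * orient (φ a.1) (φ b.1) (φ c.1) ∧ Ok φ (b :: c :: l)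
  | _ => True

@[simp] theorem ok_nil (φ : V → Pt) : Ok φ [] := trivial
@[simp] theorem ok_one (φ : V → Pt) (a) : Ok φ [a] := trivial
@[simp] theorem ok_two (φ : V → Pt) (a b) : Ok φ [a, b] := trivial
theorem ok_three (φ : V → Pt) (a b c l) : Ok φ (a :: b :: c :: l) ↔
    0 < sg a.2.2 * orient (φ a.1) (φ b.1) (φ c.1) ∧ Ok φ (b :: c :: l) := Iff.rfl

theorem ok_iff (φ : V → Pt) : ∀ L : List (V × ℕ × Bool), Ok φ L ↔ ∀ (j : ℕ) (h : j + 2 < L.length),
    0 < sg L[j].2.2 * orient (φ L[j].1) (φ L[j + 1].1) (φ L[j + 2].1)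
  | [] => by simp
  | [a] => by simp
  | [a, b] => by simp
  | a :: b :: c :: l => by
    rw [ok_three, ok_iff φ (b :: c :: l)]
    constructor
    · rintro ⟨h1, h2⟩ j hj
      cases j with
      | zero => exact h1
      | succ j => exact h2 j (by simpa using hj)
    · intro h
      exact ⟨h 0 (by simp), fun j hj => h (j + 1) (by simpa using hj)⟩

theorem obeys_iff (φ : V → Pt) (W : List V) (σ : List Bool) : Obeys φ W σ ↔
    ∀ (j : ℕ) (h : j + 2 < W.length) (h' : j < σ.length),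
      0 < sg σ[j] * orient (φ W[j]) (φ W[j + 1]) (φ W[j + 2]) := by
  refine forall₃_congr fun j h h' => ?_
  cases σ[j] <;> simp

theorem exists_injOn [DecidableEq V] {φ : V → Pt} {W : List V} {σ : List Bool} (h : Obeys φ W σ) :
    ∃ ψ : V → Pt, Set.InjOn ψ {v | v ∈ W} ∧ Obeys ψ W σ := by
  let ψ : ℝ → V → Pt := fun t v => ((φ v).1 + t * (W.idxOf v : ℝ), (φ v).2)
  have e1 : ∀ᶠ t in 𝓝[≠] (0 : ℝ), Obeys (ψ t) W σ := by
    simp only [obeys_iff] at h ⊢
    have : ∀ᶠ t in 𝓝[≠] (0 : ℝ), ∀ j ∈ List.range W.length, ∀ (h : j + 2 < W.length)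
        (h' : j < σ.length), 0 < sg σ[j] * orient (ψ t W[j]) (ψ t W[j + 1]) (ψ t W[j + 2]) := by
      refine ev_list _ fun j _ => ?_
      by_cases h1 : j + 2 < W.length
      · by_cases h2 : j < σ.length
        · have hc : Continuous fun t : ℝ =>
              sg σ[j] * orient (ψ t W[j]) (ψ t W[j + 1]) (ψ t W[j + 2]) := by
            simp only [ψ, orient]; fun_prop
          have := (hc.tendsto 0).eventually (lt_mem_nhds (by simpa [ψ] using h j h1 h2))
          exact (this.filter_mono nhdsWithin_le_nhds).mono fun t ht _ _ => ht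
        · exact .of_forall fun _ _ h => absurd h h2
      · exact .of_forall fun _ h => absurd h h1
    exact this.mono fun t ht j h1 h2 => ht j (List.mem_range.2 (by omega)) h1 h2
  have e2 : ∀ᶠ t in 𝓝[≠] (0 : ℝ), ∀ u ∈ W, ∀ v ∈ W, ψ t u = ψ t v → u = v := by
    refine ev_list _ fun u hu => ev_list _ fun v hv => ?_
    by_cases h1 : (φ u).1 = (φ v).1
    · filter_upwards [self_mem_nhdsWithin] with t ht h2
      have h3 : t * (W.idxOf u : ℝ) = t * (W.idxOf v : ℝ) := by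
        have := congrArg Prod.fst h2
        simp only [ψ] at this
        linarith
      exact (List.idxOf_inj hu).1 (by exact_mod_cast mul_left_cancel₀ ht h3)
    · have hc : Continuous fun t : ℝ => (ψ t u).1 - (ψ t v).1 := by simp only [ψ]; fun_prop
      have := (hc.tendsto 0).eventually_ne (b₂ := 0) (by simpa [ψ, sub_eq_zero] using h1)
      exact (this.filter_mono nhdsWithin_le_nhds).mono fun t ht h2 => absurd (by rw [h2, sub_self]) ht
  obtain ⟨t, h1, h2⟩ := (e1.and e2).exists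
  exact ⟨ψ t, fun u hu v hv => h2 u hu v hv, h1⟩

theorem Ok.tail {φ : V → Pt} : ∀ {a} {l : List (V × ℕ × Bool)}, Ok φ (a :: l) → Ok φ l
  | _, [], _ => trivial
  | _, [_], _ => trivial
  | _, _ :: _ :: _, h => h.2

theorem Ok.right {φ : V → Pt} {r : List (V × ℕ × Bool)} : ∀ {l}, Ok φ (l ++ r) → Ok φ r
  | [], h => h
  | _ :: _, h => Ok.right (Ok.tail h)

theorem Ok.left {φ : V → Pt} {r : List (V × ℕ × Bool)} : ∀ {l}, Ok φ (l ++ r) → Ok φ l
  | [], _ => trivial
  | [_], _ => trivial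
  | [_, _], _ => trivial
  | _ :: b :: c :: l, h => ⟨h.1, Ok.left (l := b :: c :: l) h.2⟩

theorem Ok.glue {φ : V → Pt} {x y} {r : List (V × ℕ × Bool)} (h' : Ok φ (x :: y :: r)) :
    ∀ {l}, Ok φ (l ++ [x, y]) → Ok φ (l ++ x :: y :: r)
  | [], _ => h'
  | [_], h => ⟨h.1, h'⟩
  | [_, b], h => ⟨h.1, Ok.glue h' (l := [b]) h.2⟩
  | _ :: b :: c :: l, h => ⟨h.1, Ok.glue h' (l := b :: c :: l) h.2⟩

theorem Ok.congr {φ ψ : V → Pt} : ∀ {l : List (V × ℕ × Bool)}, (∀ e ∈ l, φ e.1 = ψ e.1) →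
    Ok φ l → Ok ψ l
  | [], _, _ => trivial
  | [_], _, _ => trivial
  | [_, _], _, _ => trivial
  | a :: b :: c :: l, H, h => ⟨by
      rw [← H a (by simp), ← H b (by simp), ← H c (by simp)]; exact h.1,
    Ok.congr (fun e he => H e (List.mem_cons_of_mem _ he)) h.2⟩

theorem ev_lin {a b : ℝ} (ha : 0 < a) : ∀ᶠ R in atTop, 0 < a * R + b :=
  (tendsto_atTop_add_const_right _ b (tendsto_id.const_mul_atTop ha)).eventually_gt_atTop 0

theorem junction {u v w x : Pt} (h1 : u ≠ v) (h2 : w ≠ x) : ∃ d1 d2 d3 : Pt,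
    0 < orient u v d1 ∧ 0 < orient v d1 d2 ∧ 0 < orient d1 d2 d3 ∧ 0 < orient d2 d3 w ∧
      0 < orient d3 w x := by
  obtain ⟨u1, u2⟩ := u
  obtain ⟨v1, v2⟩ := v
  obtain ⟨w1, w2⟩ := w
  obtain ⟨x1, x2⟩ := x
  obtain ⟨a1, rfl⟩ : ∃ a, v1 = u1 + a := ⟨v1 - u1, by ring⟩
  obtain ⟨a2, rfl⟩ : ∃ a, v2 = u2 + a := ⟨v2 - u2, by ring⟩
  obtain ⟨c1, rfl⟩ : ∃ a, x1 = w1 + a := ⟨x1 - w1, by ring⟩
  obtain ⟨c2, rfl⟩ : ∃ a, x2 = w2 + a := ⟨x2 - w2, by ring⟩
  have ha : 0 < a1 ^ 2 + a2 ^ 2 := by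
    by_contra h
    have h3 : a1 = 0 := by nlinarith [sq_nonneg a1, sq_nonneg a2]
    have h4 : a2 = 0 := by nlinarith [sq_nonneg a1, sq_nonneg a2]
    exact h1 (by simp [h3, h4])
  have hc : 0 < c1 ^ 2 + c2 ^ 2 := by
    by_contra h
    have h3 : c1 = 0 := by nlinarith [sq_nonneg c1, sq_nonneg c2]
    have h4 : c2 = 0 := by nlinarith [sq_nonneg c1, sq_nonneg c2]
    exact h2 (by simp [h3, h4])
  obtain ⟨e1, e2, he, hD⟩ : ∃ e1 e2 : ℝ, 0 < c1 * e2 - c2 * e1 ∧ a1 * e2 - a2 * e1 ≠ 0 := by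
    by_cases h : a1 * c1 + a2 * c2 = 0
    · refine ⟨-c2 + c1, c1 + c2, by nlinarith, fun h' => ?_⟩
      have : (a1 ^ 2 + a2 ^ 2) * (c1 ^ 2 + c2 ^ 2) =
          (a1 * c1 + a2 * c2) ^ 2 + (a1 * (c1 + c2) - a2 * (-c2 + c1) - (a1 * c1 + a2 * c2)) ^ 2 := by
        ring
      rw [h', h] at this
      nlinarith [mul_pos ha hc]
    · exact ⟨-c2, c1, by nlinarith, fun h' => h (by linarith)⟩
  set D := a1 * e2 - a2 * e1 with hDe
  have hD2 : 0 < D ^ 2 := by positivity
  set f1 := -D * (a1 + e1) with hf1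
  set f2 := -D * (a2 + e2) with hf2
  have k1 : a1 * f2 - a2 * f1 = -D ^ 2 := by simp only [hf1, hf2, hDe]; ring
  have k2 : e1 * f2 - e2 * f1 = D ^ 2 := by simp only [hf1, hf2, hDe]; ring
  obtain ⟨R, hR, hR'⟩ := ((eventually_gt_atTop (0 : ℝ)).and
    (ev_lin (b := f1 * (u2 + a2 - w2) - f2 * (u1 + a1 - w1)) hD2)).exists
  obtain ⟨T, hT, hT'⟩ := ((eventually_gt_atTop (0 : ℝ)).and
    (ev_lin (b := a1 * (w2 + R * e2 - u2) - a2 * (w1 + R * e1 - u1)) hD2)).exists
  let d1 : Pt := (w1 + R * e1 - T * f1, w2 + R * e2 - T * f2)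
  let d3 : Pt := (w1 + R * e1, w2 + R * e2)
  let d2 : ℝ → Pt := fun s => (w1 + R * e1 - T / 2 * f1 + s * f2, w2 + R * e2 - T / 2 * f2 - s * f1)
  have c1' : Continuous fun s => orient (u1 + a1, u2 + a2) d1 (d2 s) := by
    simp only [orient, d2]; fun_prop
  have c2' : Continuous fun s => orient (d2 s) d3 (w1, w2) := by
    simp only [orient, d2]; fun_prop
  have p1 : 0 < orient (u1 + a1, u2 + a2) d1 (d2 0) := by
    have : orient (u1 + a1, u2 + a2) d1 (d2 0) =
        T / 2 * ((e1 * f2 - e2 * f1) * R + (f1 * (u2 + a2 - w2) - f2 * (u1 + a1 - w1))) := by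
      simp only [orient, d1, d2]; ring
    rw [this, k2]; positivity
  have p2 : 0 < orient (d2 0) d3 (w1, w2) := by
    have : orient (d2 0) d3 (w1, w2) = T / 2 * R * (e1 * f2 - e2 * f1) := by
      simp only [orient, d3, d2]; ring
    rw [this, k2]; positivity
  obtain ⟨s, ⟨hs1, hs2⟩, hs⟩ := (((((c1'.tendsto 0).eventually (lt_mem_nhds p1)).and
    ((c2'.tendsto 0).eventually (lt_mem_nhds p2))).filter_mono
      (nhdsWithin_le_nhds (s := Set.Ioi 0))).and self_mem_nhdsWithin).exists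
  refine ⟨d1, d2 s, d3, ?_, hs1, ?_, hs2, ?_⟩
  · have : orient (u1, u2) (u1 + a1, u2 + a2) d1 =
        -(a1 * f2 - a2 * f1) * T + (a1 * (w2 + R * e2 - u2) - a2 * (w1 + R * e1 - u1)) := by
      simp only [orient, d1]; ring
    rw [this, k1, neg_neg]; exact hT'
  · have : orient d1 (d2 s) d3 = s * T * (f1 ^ 2 + f2 ^ 2) := by simp only [orient, d1, d2, d3]; ring
    rw [this]
    have hf : 0 < f1 ^ 2 + f2 ^ 2 := by
      by_contra h
      have h3 : f1 = 0 := by nlinarith [sq_nonneg f1, sq_nonneg f2]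
      have h4 : f2 = 0 := by nlinarith [sq_nonneg f1, sq_nonneg f2]
      rw [h3, h4] at k2
      linarith
    have hs : 0 < s := hs
    positivity
  · have : orient d3 (w1, w2) (w1 + c1, w2 + c2) = R * (c1 * e2 - c2 * e1) := by
      simp only [orient, d3]; ring
    rw [this]; positivity

/-- A piece: at least three entries, the last two labelled `true`. -/
def Good (p : List (V × ℕ × Bool)) : Prop :=
  (∃ a b c l, p = a :: b :: c :: l) ∧
    ∃ l x y z s t, p = l ++ [x, (y, s, true), (z, t, true)]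

def dums (dum : ℕ → V) (n : ℕ) : List (V × ℕ × Bool) :=
  [(dum (3 * n), 0, true), (dum (3 * n + 1), 0, true), (dum (3 * n + 2), 0, true)]

def joinR (dum : ℕ → V) : ℕ → List (List (V × ℕ × Bool)) → List (V × ℕ × Bool)
  | _, [] => []
  | n, p :: ps => p ++ dums dum n ++ joinR dum (n + 1) ps

theorem joinR_eq (dum : ℕ → V) : ∀ (ps : List (List (V × ℕ × Bool))) (n : ℕ), joinR dum n ps =
    (List.range ps.length).flatMap fun m => ps.getD m [] ++ dums dum (n + m)
  | [], _ => rfl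
  | p :: ps, n => by
    rw [joinR, joinR_eq dum ps, List.length_cons, List.range_succ_eq_map, List.flatMap_cons,
      List.flatMap_map]
    simp [add_assoc, add_comm 1]

theorem mem_joinR {dum : ℕ → V} {e} : ∀ {ps : List (List (V × ℕ × Bool))} {n : ℕ},
    e ∈ joinR dum n ps → (∃ p ∈ ps, e ∈ p) ∨ ∃ m, 3 * n ≤ m ∧ e = (dum m, 0, true)
  | [], _, h => by simp [joinR] at h
  | p :: ps, n, h => by
    simp only [joinR, List.mem_append] at h
    rcases h with (h | h) | h
    · exact .inl ⟨p, by simp, h⟩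
    · simp only [dums, List.mem_cons, List.not_mem_nil, or_false] at h
      rcases h with h | h | h <;> exact .inr ⟨_, by omega, h⟩
    · rcases mem_joinR h with ⟨q, hq, h⟩ | ⟨m, hm, h⟩
      · exact .inl ⟨q, List.mem_cons_of_mem _ hq, h⟩
      · exact .inr ⟨m, by omega, h⟩

theorem ok_of_join {dum : ℕ → V} {φ : V → Pt} : ∀ {ps : List (List (V × ℕ × Bool))} {n : ℕ},
    Ok φ (joinR dum n ps) → ∀ p ∈ ps, Ok φ p
  | [], _, _ => by simp
  | p :: ps, n, h => List.forall_mem_cons.2 ⟨h.left.left, ok_of_join h.right⟩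

theorem ne_of_pos {b : Bool} {p q r : Pt} (h : 0 < sg b * orient p q r) : p ≠ q ∧ q ≠ r := by
  constructor <;> rintro rfl <;> simp [orient, mul_comm] at h

theorem join_ok {dum : ℕ → V} (hd : Function.Injective dum) {φ : V → Pt} :
    ∀ (ps : List (List (V × ℕ × Bool))) (n : ℕ), (∀ p ∈ ps, Good p ∧ Ok φ p) →
      (∀ p ∈ ps, ∀ e ∈ p, ∀ m, dum m ≠ e.1) →
      ∃ ψ : ℕ → Pt, Ok (Function.extend dum ψ φ) (joinR dum n ps)
  | [], _, _, _ => ⟨0, trivial⟩
  | p :: ps, n, h, hf => by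
    classical
    obtain ⟨ψ, hψ⟩ := join_ok hd ps (n + 1) (fun q hq => h q (List.mem_cons_of_mem _ hq))
      fun q hq => hf q (List.mem_cons_of_mem _ hq)
    have ext : ∀ (χ : ℕ → Pt), ∀ q ∈ p :: ps, ∀ e ∈ q, Function.extend dum χ φ e.1 = φ e.1 :=
      fun χ q hq e he => Function.extend_apply' _ _ _ fun ⟨m, hm⟩ => hf q hq e he m hm
    obtain ⟨⟨-, l, x, y, z, s, t, hp⟩, hok⟩ := h p (by simp)
    have hyz : φ y ≠ φ z := (ne_of_pos (hp ▸ hok : Ok φ (l ++ [x, _, _])).right.1).2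
    obtain ⟨w1, w2, hw, hT⟩ : ∃ w1 w2 : Pt, w1 ≠ w2 ∧ (joinR dum (n + 1) ps = [] ∨
        ∃ a b r, joinR dum (n + 1) ps = a :: b :: r ∧ ∀ χ : ℕ → Pt,
          Function.extend dum χ φ a.1 = w1 ∧ Function.extend dum χ φ b.1 = w2) := by
      cases ps with
      | nil => exact ⟨_, _, hyz, .inl rfl⟩
      | cons q ps =>
        obtain ⟨⟨⟨a, b, c, l, rfl⟩, -⟩, hq⟩ := h q (by simp)
        exact ⟨_, _, (ne_of_pos hq.1).1, .inr ⟨a, b, _, rfl, fun χ =>
          ⟨ext χ (a :: b :: c :: l) (by simp) a (by simp),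
            ext χ (a :: b :: c :: l) (by simp) b (by simp)⟩⟩⟩
    obtain ⟨d1, d2, d3, j1, j2, j3, j4, j5⟩ := junction hyz hw
    let χ : ℕ → Pt := fun m =>
      if m = 3 * n then d1 else if m = 3 * n + 1 then d2 else if m = 3 * n + 2 then d3 else ψ m
    have t1 : Ok (Function.extend dum χ φ) (joinR dum (n + 1) ps) := hψ.congr fun e he => by
      rcases mem_joinR he with ⟨q, hq, h⟩ | ⟨m, hm, rfl⟩
      · rw [ext ψ q (List.mem_cons_of_mem _ hq) e h, ext χ q (List.mem_cons_of_mem _ hq) e h]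
      · simp only [hd.extend_apply, χ]
        rw [if_neg (by omega), if_neg (by omega), if_neg (by omega)]
    have t2 : Ok (Function.extend dum χ φ) p := hok.congr fun e he => (ext χ p (by simp) e he).symm
    have hy : Function.extend dum χ φ y = φ y := ext χ p (by simp) (y, s, true) (by simp [hp])
    have hz : Function.extend dum χ φ z = φ z := ext χ p (by simp) (z, t, true) (by simp [hp])
    have g1 : χ (3 * n) = d1 := by simp [χ]
    have g2 : χ (3 * n + 1) = d2 := by simp [χ]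
    have g3 : χ (3 * n + 2) = d3 := by simp [χ]
    refine ⟨χ, ?_⟩
    have : joinR dum n (p :: ps) = (l ++ [x]) ++ (y, s, true) :: (z, t, true) ::
        (dums dum n ++ joinR dum (n + 1) ps) := by simp [joinR, hp]
    rw [this]
    refine Ok.glue ?_ (by simpa [hp] using t2)
    rcases hT with hT | ⟨a, b, r, hT, hab⟩
    · simp [hT, dums, ok_three, hd.extend_apply, hy, hz, g1, g2, g3, j1, j2, j3]
    · rw [hT] at t1 ⊢
      simp [dums, ok_three, hd.extend_apply, hy, hz, g1, g2, g3, j1, j2, j3, (hab χ).1, (hab χ).2,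
        j4, j5, t1]

theorem nodup_join {dum : ℕ → V} (hd : Function.Injective dum) :
    ∀ (ps : List (List (V × ℕ × Bool))) (n : ℕ),
      (ps.flatten.map fun e => (e.1, e.2.1)).Nodup → (∀ p ∈ ps, ∀ e ∈ p, ∀ m, dum m ≠ e.1) →
      ((joinR dum n ps).map fun e => (e.1, e.2.1)).Nodup
  | [], _, _, _ => by simp [joinR]
  | p :: ps, n, h, hf => by
    rw [List.flatten_cons, List.map_append, List.nodup_append] at h
    obtain ⟨h1, h2, h3⟩ := h
    have ih := nodup_join hd ps (n + 1) h2 fun q hq => hf q (List.mem_cons_of_mem _ hq)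
    simp only [joinR, List.map_append, List.nodup_append, List.mem_append, List.mem_map]
    refine ⟨⟨h1, by simp [dums, hd.eq_iff], ?_⟩, ih, ?_⟩
    · rintro _ ⟨e, he, rfl⟩ _ ⟨e', he', rfl⟩ h
      simp only [dums, List.mem_cons, List.not_mem_nil, or_false] at he'
      rcases he' with rfl | rfl | rfl <;> exact hf p (by simp) e he _ (congrArg Prod.fst h).symm
    · rintro _ (⟨e, he, rfl⟩ | ⟨e, he, rfl⟩) _ ⟨e', he', rfl⟩ h
      · rcases mem_joinR he' with ⟨q, hq, h'⟩ | ⟨m, -, rfl⟩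
        · exact h3 _ (List.mem_map_of_mem he) _
            (List.mem_map_of_mem (List.mem_flatten.2 ⟨q, hq, h'⟩)) h
        · exact hf p (by simp) e he _ (congrArg Prod.fst h).symm
      · simp only [dums, List.mem_cons, List.not_mem_nil, or_false] at he
        rcases mem_joinR he' with ⟨q, hq, h'⟩ | ⟨m, hm, rfl⟩
        · rcases he with rfl | rfl | rfl <;>
            exact hf q (List.mem_cons_of_mem _ hq) e' h' _ (congrArg Prod.fst h)
        · rcases he with rfl | rfl | rfl <;>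
            · have := hd (congrArg Prod.fst h)
              omega

theorem count_le_three [BEq V] [LawfulBEq V] {L : List (V × ℕ × Bool)}
    (h : (L.map fun e => (e.1, e.2.1)).Nodup) (h3 : ∀ e ∈ L, e.2.1 < 3) (v : V) :
    (L.map Prod.fst).count v ≤ 3 := by
  have h1 : (L.map Prod.fst).count v =
      ((L.map fun e => (e.1, e.2.1)).filter fun e => e.1 == v).length := by
    rw [List.count, List.countP_map, ← List.countP_eq_length_filter, List.countP_map]
    rfl
  rw [h1]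
  refine ((h.filter _).subperm (l₂ := [(v, 0), (v, 1), (v, 2)]) fun x hx => ?_).length_le
  simp only [List.mem_filter, List.mem_map, beq_iff_eq] at hx
  obtain ⟨⟨e, he, rfl⟩, rfl⟩ := hx
  have := h3 e he
  simp
  omega

end Pool.Agent.P.MP_70cdcc_lc
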