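import Pool.Agent.P.MP_70cdcc_lc.Walk

/-! Nested triangles: soundness and an explicit realisation. -/

namespace Pool.Agent.P.MP_70cdcc_lc

open Pool.Agent.Lib.ETR Filter Topology

def aff (g : V3) (x : Pt) : ℝ := g.1 * x.1 + g.2.1 * x.2 + g.2.2

theorem tri_pos {g : V3} {a b c p : Pt} (h1 : 0 < orient a b p) (h2 : 0 < orient b c p)
    (h3 : 0 < orient c a p) (ha : 0 < aff g a) (hb : 0 < aff g b) (hc : 0 < aff g c) :
    0 < aff g p := by
  have : (orient a b p + orient b c p + orient c a p) * aff g p =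
      orient b c p * aff g a + orient c a p * aff g b + orient a b p * aff g c := by
    simp only [orient, aff]; ring
  exact pos_of_mul_pos_right (b := aff g p) (a := orient a b p + orient b c p + orient c a p)
    (by rw [this]; positivity) (by positivity)

theorem wire_sound {q : ℕ → Pt} {lo hi : ℕ}
    (h1 : ∀ i, lo ≤ i → i ≤ hi → 0 < orient (q i) (q (i + 1)) (q (i + 3)))
    (h2 : ∀ i, lo ≤ i → i ≤ hi → orient (q i) (q (i + 2)) (q (i + 3)) < 0)
    (h3 : 0 < orient (q (hi + 1)) (q (hi + 2)) (q (hi + 3))) {g : V3} {i : ℕ} (hi0 : lo ≤ i)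
    (g0 : 0 < aff g (q i)) (g1 : 0 < aff g (q (i + 1))) (g2 : 0 < aff g (q (i + 2))) :
    ∀ j, i ≤ j → j ≤ hi + 3 → 0 < aff g (q j) := by
  have D : ∀ m i, lo ≤ i → i + m = hi + 1 → 0 < orient (q i) (q (i + 1)) (q (i + 2)) := by
    intro m
    induction m with
    | zero => rintro i - h; obtain rfl : i = hi + 1 := h; exact h3
    | succ m ih =>
      intro i hl h
      have e1 := ih (i + 1) (by omega) (by omega)
      have e2 := h1 i hl (by omega)
      have e3 := h2 i hl (by omega)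
      have : orient (q i) (q (i + 1)) (q (i + 2)) = orient (q i) (q (i + 1)) (q (i + 3)) +
          orient (q (i + 1)) (q (i + 1 + 1)) (q (i + 1 + 2)) -
          orient (q i) (q (i + 2)) (q (i + 3)) := by simp only [orient]; ring
      linarith
  intro j
  induction j using Nat.strong_induction_on with
  | _ j ih =>
    intro hj hj'
    by_cases h : j < i + 3
    · obtain rfl | rfl | rfl : j = i ∨ j = i + 1 ∨ j = i + 2 := by omega
      exacts [g0, g1, g2]
    · obtain ⟨k, rfl⟩ : ∃ k, j = k + 3 := ⟨j - 3, by omega⟩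
      refine tri_pos (h1 k (by omega) (by omega)) (D (hi - k) (k + 1) (by omega) (by omega)) ?_
        (ih k (by omega) (by omega) (by omega)) (ih (k + 1) (by omega) (by omega) (by omega))
        (ih (k + 2) (by omega) (by omega) (by omega))
      have e3 := h2 k (by omega) (by omega)
      have : orient (q (k + 1 + 1)) (q k) (q (k + 3)) = -orient (q k) (q (k + 2)) (q (k + 3)) := by
        simp only [orient]; ring
      linarith

noncomputable def cen (C : ℕ → Pt) : Pt :=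
  (((C 0).1 + (C 1).1 + (C 2).1) / 3, ((C 0).2 + (C 1).2 + (C 2).2) / 3)

noncomputable def wq (C : ℕ → Pt) (θ : ℝ) (i : ℕ) : Pt :=
  ((cen C).1 + (1 - θ) ^ (i + 1) * ((C (i % 3)).1 - (cen C).1),
    (cen C).2 + (1 - θ) ^ (i + 1) * ((C (i % 3)).2 - (cen C).2))

noncomputable def ws (C : ℕ → Pt) (θ : ℝ) (i : ℕ) : Pt :=
  ((1 - θ) / 2 * ((wq C θ i).1 + (wq C θ (i + 3)).1) + θ * (wq C θ (i + 1)).1,
    (1 - θ) / 2 * ((wq C θ i).2 + (wq C θ (i + 3)).2) + θ * (wq C θ (i + 1)).2)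

section

variable {C : ℕ → Pt} {θ : ℝ} (h0 : 0 < θ) (h1 : θ < 1) (hC : 0 < orient (C 0) (C 1) (C 2))

theorem mod3 (i : ℕ) : (i % 3 = 0 ∧ (i + 1) % 3 = 1 ∧ (i + 2) % 3 = 2 ∧ (i + 3) % 3 = 0) ∨
    (i % 3 = 1 ∧ (i + 1) % 3 = 2 ∧ (i + 2) % 3 = 0 ∧ (i + 3) % 3 = 1) ∨
    (i % 3 = 2 ∧ (i + 1) % 3 = 0 ∧ (i + 2) % 3 = 1 ∧ (i + 3) % 3 = 2) := by omega

include h0 h1 hC

theorem wq1 (i : ℕ) : 0 < orient (wq C θ i) (wq C θ (i + 1)) (wq C θ (i + 3)) := by
  have hl : 0 < 1 - θ := by linarith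
  have h3 : 0 < 1 - (1 - θ) ^ 3 := sub_pos.2 (pow_lt_one₀ hl.le (by linarith) (by norm_num))
  have : orient (wq C θ i) (wq C θ (i + 1)) (wq C θ (i + 3)) = ((1 - θ) ^ (i + 1)) ^ 2 * (1 - θ) *
      (1 - (1 - θ) ^ 3) * orient (C 0) (C 1) (C 2) / 3 := by
    rcases mod3 i with ⟨a, b, -, d⟩ | ⟨a, b, -, d⟩ | ⟨a, b, -, d⟩ <;>
      simp only [orient, wq, cen, a, b, d, pow_succ (1 - θ) (i + _)] <;> ring
  rw [this]; positivity

theorem wq2 (i : ℕ) : orient (wq C θ i) (wq C θ (i + 2)) (wq C θ (i + 3)) < 0 := by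
  have hl : 0 < 1 - θ := by linarith
  have h3 : 0 < 1 - (1 - θ) ^ 3 := sub_pos.2 (pow_lt_one₀ hl.le (by linarith) (by norm_num))
  have : orient (wq C θ i) (wq C θ (i + 2)) (wq C θ (i + 3)) = -(((1 - θ) ^ (i + 1)) ^ 2 *
      (1 - θ) ^ 2 * (1 - (1 - θ) ^ 3) * orient (C 0) (C 1) (C 2) / 3) := by
    rcases mod3 i with ⟨a, -, b, d⟩ | ⟨a, -, b, d⟩ | ⟨a, -, b, d⟩ <;>
      simp only [orient, wq, cen, a, b, d, pow_succ (1 - θ) (i + _)] <;> ring
  rw [this, neg_lt_zero]; positivity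

omit h0 in
theorem wq3 (i : ℕ) : 0 < orient (wq C θ i) (wq C θ (i + 1)) (wq C θ (i + 2)) := by
  have hl : 0 < 1 - θ := by linarith
  have : orient (wq C θ i) (wq C θ (i + 1)) (wq C θ (i + 2)) = ((1 - θ) ^ (i + 1)) ^ 2 *
      ((1 - θ) + (1 - θ) ^ 2 + (1 - θ) ^ 3) * orient (C 0) (C 1) (C 2) / 3 := by
    rcases mod3 i with ⟨a, b, d, -⟩ | ⟨a, b, d, -⟩ | ⟨a, b, d, -⟩ <;>
      simp only [orient, wq, cen, a, b, d, pow_succ (1 - θ) (i + _)] <;> ring
  rw [this]; positivity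

theorem ws1 (i : ℕ) : 0 < orient (wq C θ i) (wq C θ (i + 1)) (ws C θ i) := by
  have hl : 0 < 1 - θ := by linarith
  have := wq1 h0 h1 hC i
  have e : orient (wq C θ i) (wq C θ (i + 1)) (ws C θ i) =
      (1 - θ) / 2 * orient (wq C θ i) (wq C θ (i + 1)) (wq C θ (i + 3)) := by
    simp only [orient, ws]; ring
  rw [e]; positivity

theorem ws2 (i : ℕ) : orient (wq C θ (i + 1)) (ws C θ i) (wq C θ (i + 3)) < 0 := by
  have hl : 0 < 1 - θ := by linarith
  have := wq1 h0 h1 hC i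
  have e : orient (wq C θ (i + 1)) (ws C θ i) (wq C θ (i + 3)) =
      -((1 - θ) / 2 * orient (wq C θ i) (wq C θ (i + 1)) (wq C θ (i + 3))) := by
    simp only [orient, ws]; ring
  rw [e, neg_lt_zero]; positivity

theorem ws3 (i : ℕ) : 0 < orient (ws C θ i) (wq C θ (i + 3)) (wq C θ i) := by
  have := wq1 h0 h1 hC i
  have e : orient (ws C θ i) (wq C θ (i + 3)) (wq C θ i) =
      θ * orient (wq C θ i) (wq C θ (i + 1)) (wq C θ (i + 3)) := by
    simp only [orient, ws]; ring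
  rw [e]; positivity

omit hC in
theorem wq_aff {g : V3} (g0 : 0 ≤ aff g (C 0)) (g1 : 0 ≤ aff g (C 1)) (g2 : 0 < aff g (C 2))
    (i : ℕ) : 0 < aff g (wq C θ i) := by
  have hl : 0 < 1 - θ := by linarith
  have h3 : 0 < 1 - (1 - θ) ^ (i + 1) := sub_pos.2 (pow_lt_one₀ hl.le (by linarith) (by norm_num))
  have e : aff g (wq C θ i) = (1 - (1 - θ) ^ (i + 1)) * ((aff g (C 0) + aff g (C 1) + aff g (C 2)) / 3)
      + (1 - θ) ^ (i + 1) * aff g (C (i % 3)) := by
    simp only [aff, wq, cen]; ring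
  have h4 : 0 ≤ aff g (C (i % 3)) := by
    rcases mod3 i with ⟨a, -⟩ | ⟨a, -⟩ | ⟨a, -⟩ <;> rw [a]
    exacts [g0, g1, g2.le]
  rw [e]; positivity

end

theorem wq_zero (C : ℕ → Pt) (i : ℕ) : wq C 0 i = C (i % 3) := by simp [wq]

theorem ws_zero (C : ℕ → Pt) (i : ℕ) : ws C 0 i = C (i % 3) := by
  simp only [ws, wq_zero, Nat.add_mod_right]
  ext <;> simp only <;> ring

/-- A large triangle with one side on the line `g = 0`. -/
noncomputable def big (g : V3) (L : ℝ) (k : ℕ) : Pt :=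
  if k = 0 then (-g.2.2 / g.1 - L * g.2.1, L * g.1)
  else if k = 1 then (-g.2.2 / g.1 + L * g.2.1, -L * g.1)
  else (-g.2.2 / g.1 + L * g.1, L * g.2.1)

theorem big_spec {g : V3} (hg : g.1 ≠ 0) {L : ℝ} (hL : 0 < L) :
    0 < orient (big g L 0) (big g L 1) (big g L 2) ∧ 0 ≤ aff g (big g L 0) ∧
      0 ≤ aff g (big g L 1) ∧ 0 < aff g (big g L 2) := by
  have hD : 0 < g.1 ^ 2 + g.2.1 ^ 2 := by positivity
  refine ⟨?_, ?_, ?_, ?_⟩
  · have : orient (big g L 0) (big g L 1) (big g L 2) = 2 * L ^ 2 * (g.1 ^ 2 + g.2.1 ^ 2) := by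
      simp [orient, big]; ring
    rw [this]; positivity
  · have : aff g (big g L 0) = 0 := by simp [aff, big]; field_simp; ring
    exact this.ge
  · have : aff g (big g L 1) = 0 := by simp [aff, big]; field_simp; ring
    exact this.ge
  · have : aff g (big g L 2) = L * (g.1 ^ 2 + g.2.1 ^ 2) := by simp [aff, big]; field_simp; ring
    rw [this]; positivity

theorem big_ev {g : V3} (hg : g.1 ≠ 0) {x : Pt} (hx : 0 < aff g x) : ∀ᶠ L in atTop,
    0 < orient (big g L 0) (big g L 1) x ∧ 0 < orient (big g L 1) (big g L 2) x ∧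
      0 < orient (big g L 2) (big g L 0) x := by
  have hD : 0 < g.1 ^ 2 + g.2.1 ^ 2 := by positivity
  filter_upwards [eventually_gt_atTop (0 : ℝ),
    ev_lin (b := (g.1 - g.2.1) * x.2 - (g.1 + g.2.1) * (x.1 + g.2.2 / g.1)) hD,
    ev_lin (b := -(g.1 + g.2.1) * x.2 - (g.1 - g.2.1) * (x.1 + g.2.2 / g.1)) hD] with L hL h1 h2
  refine ⟨?_, ?_, ?_⟩
  · have : orient (big g L 0) (big g L 1) x = 2 * L * aff g x := by
      simp [orient, big, aff]; field_simp; ring
    rw [this]; positivity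
  · refine (mul_pos hL h1).trans_eq ?_
    simp [orient, big]; ring
  · refine (mul_pos hL h2).trans_eq ?_
    simp [orient, big]; ring

end Pool.Agent.P.MP_70cdcc_lc
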